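import Pool.Agent.Y503.RB.Def3

set_option autoImplicit false

/-!
# RB3-SQE (project RB of helper503): the equations at an inner critical point
-/

namespace Pool.Agent.Y555.RB

open scoped ContDiff RealInnerProductSpace ENNReal Topology
open MeasureTheory Set Metric Pool.Agent.Y503.RB

/-- second derivatives of a function -/
lemma fd2 {E : Type*} [NormedAddCommGroup E] [NormedSpace ℝ E] (f : ℂ → E) (z v : ℂ)
    (hf : ContDiffAt ℝ ∞ f z) :
    HasFDerivAt (fun w => fderiv ℝ f w v)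
      ((fderiv ℝ (fderiv ℝ f) z).flip v) z := by
  have h1 : DifferentiableAt ℝ (fderiv ℝ f) z :=
    (hf.fderiv_right (m := 1) (by norm_cast)).differentiableAt (by norm_num)
  have h2 := h1.hasFDerivAt.clm_apply (hasFDerivAt_const v z)
  refine h2.congr_fderiv ?_
  ext u
  simp

lemma ev_diff {E : Type*} [NormedAddCommGroup E] [NormedSpace ℝ E] {f : ℂ → E} {z : ℂ}
    (hf : ContDiffAt ℝ ∞ f z) : ∀ᶠ w in 𝓝 z, DifferentiableAt ℝ f w := by
  have h1 : ContDiffAt ℝ 1 f z := hf.of_le (by norm_cast)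
  filter_upwards [h1.eventually (by simp)] with w hw
  exact hw.differentiableAt (by norm_num)

lemma psi_d1 (f : ℂ → ℝ) (σ : ℂ → E4) (δ : ℝ) (w v : ℂ) (hf : DifferentiableAt ℝ f w)
    (hσ : DifferentiableAt ℝ σ w) :
    fderiv ℝ (fun w => (1 - δ * f w) • σ w) w v =
      (1 - δ * f w) • fderiv ℝ σ w v - (δ * fderiv ℝ f w v) • σ w := by
  have h1 : HasFDerivAt (fun w => 1 - δ * f w) (-(δ • fderiv ℝ f w)) w := by
    simpa using (hf.hasFDerivAt.const_mul δ).const_sub 1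
  have h2 := h1.smul hσ.hasFDerivAt
  have h3 := h2.fderiv
  have h4 : (fun w => (1 - δ * f w) • σ w) = (fun w => 1 - δ * f w) • σ := rfl
  rw [h4, h3]
  simp [sub_eq_add_neg]

lemma psi_d2 (f : ℂ → ℝ) (σ : ℂ → E4) (δ : ℝ) (z v : ℂ) (hf : ContDiffAt ℝ ∞ f z)
    (hσ : ContDiffAt ℝ ∞ σ z) :
    d2 (fun w => (1 - δ * f w) • σ w) v v z =
      (1 - δ * f z) • d2 σ v v z - (2 * δ * fderiv ℝ f z v) • d1 σ v z -
        (δ * fderiv ℝ (fderiv ℝ f) z v v) • σ z := by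
  have e1 : (fun w => fderiv ℝ (fun w => (1 - δ * f w) • σ w) w v) =ᶠ[𝓝 z]
      fun w => (1 - δ * f w) • fderiv ℝ σ w v - (δ * fderiv ℝ f w v) • σ w := by
    filter_upwards [ev_diff hf, ev_diff hσ] with w h1 h2
    exact psi_d1 f σ δ w v h1 h2
  unfold d2
  rw [e1.fderiv_eq]
  have hfd : DifferentiableAt ℝ f z := (ev_diff hf).self_of_nhds
  have hσd : DifferentiableAt ℝ σ z := (ev_diff hσ).self_of_nhds
  have h1 : HasFDerivAt (fun w => 1 - δ * f w) (-(δ • fderiv ℝ f z)) z := by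
    simpa using (hfd.hasFDerivAt.const_mul δ).const_sub 1
  have h2 := h1.smul (fd2 σ z v hσ)
  have h3 := ((fd2 f z v hf).const_mul δ).smul hσd.hasFDerivAt
  have h4 := (h2.sub h3).fderiv
  have h5 : (fun w => (1 - δ * f w) • fderiv ℝ σ w v - (δ * fderiv ℝ f w v) • σ w) =
    ((fun w => 1 - δ * f w) • fun w => fderiv ℝ σ w v) -
      (fun w => δ * fderiv ℝ f w v) • σ := rfl
  rw [h5, h4, (fd2 σ z v hσ).fderiv]
  simp only [d1, sub_apply, add_apply,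
    smul_apply, ContinuousLinearMap.smulRight_apply,
    ContinuousLinearMap.flip_apply, neg_apply, smul_eq_mul]
  module

lemma sig_rel (σ : ℂ → E4) (z v : ℂ) (hσ : ContDiffAt ℝ ∞ σ z)
    (hs : ∀ᶠ w in 𝓝 z, ‖σ w‖ = 1) :
    ⟪σ z, σ z⟫ = (1 : ℝ) ∧ ⟪σ z, d1 σ v z⟫ = (0 : ℝ) ∧
      ⟪σ z, d2 σ v v z⟫ = -⟪d1 σ v z, d1 σ v z⟫ := by
  have h0 : ∀ᶠ w in 𝓝 z, ⟪σ w, σ w⟫ = (1 : ℝ) := by
    filter_upwards [hs] with w hw
    rw [real_inner_self_eq_norm_sq, hw]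
    norm_num
  have h1 : ∀ᶠ w in 𝓝 z, ⟪σ w, fderiv ℝ σ w v⟫ = (0 : ℝ) := by
    filter_upwards [h0.eventually_nhds, ev_diff hσ] with w hw hd
    have e1 : (fun w => (⟪σ w, σ w⟫ : ℝ)) =ᶠ[𝓝 w] fun _ => (1 : ℝ) := hw
    have e2 := e1.fderiv_eq (𝕜 := ℝ)
    have e3 := (hd.hasFDerivAt.inner ℝ hd.hasFDerivAt).fderiv
    rw [e3, fderiv_const_apply] at e2
    have e4 := congrArg (fun L : ℂ →L[ℝ] ℝ => L v) e2
    simp only [ContinuousLinearMap.comp_apply, ContinuousLinearMap.prod_apply,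
      fderivInnerCLM_apply, zero_apply] at e4
    rw [real_inner_comm (σ w) (fderiv ℝ σ w v)] at e4
    linarith
  refine ⟨h0.self_of_nhds, h1.self_of_nhds, ?_⟩
  have hd : DifferentiableAt ℝ σ z := (ev_diff hσ).self_of_nhds
  have e1 : (fun w => (⟪σ w, fderiv ℝ σ w v⟫ : ℝ)) =ᶠ[𝓝 z] fun _ => (0 : ℝ) := h1
  have e2 := e1.fderiv_eq (𝕜 := ℝ)
  have e3 := (hd.hasFDerivAt.inner ℝ (fd2 σ z v hσ)).fderiv
  rw [e3, fderiv_const_apply] at e2
  have e4 := congrArg (fun L : ℂ →L[ℝ] ℝ => L v) e2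
  simp only [ContinuousLinearMap.comp_apply, ContinuousLinearMap.prod_apply,
    fderivInnerCLM_apply, zero_apply] at e4
  unfold d2 d1
  rw [(fd2 σ z v hσ).fderiv]
  linarith


/-- the algebra -/
lemma alg (t δ F g G a b1 b2 N : ℝ) (ht : 0 < t) (hδ : 0 < δ)
    (e0 : t * (((1 - δ * F) ^ 2 - 2 * ((1 - δ * F) * a)) + 1) = 1 - (1 - δ * F) ^ 2)
    (e1 : t * ((1 - δ * F) * b1 - δ * g * a) - (1 + t) * ((1 - δ * F) * (- (δ * g))) = 0)
    (e2 : (1 + t) * ((1 - δ * F) ^ 2 * N + (δ * g) ^ 2) <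
      t * ((1 - δ * F) * b2 - 2 * δ * g * b1 - δ * G * a) -
        (1 + t) * ((1 - δ * F) * ((1 - δ * F) * (-N) - δ * G))) :
    2 * δ / t * F * (1 - δ * F / 2) = (2 - 2 * a) * (1 - δ * F) + δ ^ 2 * F ^ 2 ∧
    (1 - δ * F) * (-2 * b1) =
      g * (2 * δ / t * (1 - δ * F) + δ * (2 - 2 * a - 2 * δ * F)) ∧
    (1 - δ * F) * (-2 * b2) <
      G * (2 * δ / t * (1 - δ * F) + δ * (2 - 2 * a - 2 * δ * F)) +
        2 * δ * g * (-2 * b1) - δ * (2 * δ / t + 2 * δ) * g ^ 2 := by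
  have hb : t * (2 * δ / t) = 2 * δ := by field_simp
  set β := 2 * δ / t with hβ
  refine ⟨?_, ?_, ?_⟩
  · apply mul_left_cancel₀ ht.ne'
    linear_combination F * (1 - δ * F / 2) * hb - e0
  · apply mul_left_cancel₀ ht.ne'
    linear_combination (-2) * e1 - g * (1 - δ * F) * hb
  · have h1 : t * ((1 - δ * F) * (-2 * b2)) <
        t * (G * (β * (1 - δ * F) + δ * (2 - 2 * a - 2 * δ * F)) +
        2 * δ * g * (-2 * b1) - δ * (β + 2 * δ) * g ^ 2) := by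
      have h2 : t * (G * (β * (1 - δ * F) + δ * (2 - 2 * a - 2 * δ * F)) +
        2 * δ * g * (-2 * b1) - δ * (β + 2 * δ) * g ^ 2) =
        G * (2 * δ * (1 - δ * F) + t * (δ * (2 - 2 * a - 2 * δ * F))) +
        t * (2 * δ * g * (-2 * b1)) - δ * (2 * δ + t * (2 * δ)) * g ^ 2 := by
        linear_combination (G * (1 - δ * F) - δ * g ^ 2) * hb
      rw [h2]
      linarith
    exact lt_of_mul_lt_mul_left h1 ht.le

theorem sqe_of (hI : St_INN) : St_SQE := by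
  intro f σ δ z n hf hσ hs hδ hF hF1 hn horth hinner
  have hr : 0 < 1 - δ * f z := by linarith
  have hr1 : 1 - δ * f z < 1 := by nlinarith
  obtain ⟨r1, -, -⟩ := sig_rel σ z 0 hσ hs
  have hσ1 : ‖σ z‖ = 1 := hs.self_of_nhds
  have hfd : DifferentiableAt ℝ f z := (ev_diff hf).self_of_nhds
  have hσd : DifferentiableAt ℝ σ z := (ev_diff hσ).self_of_nhds
  have hψ : ContDiffAt ℝ ∞ (fun w => (1 - δ * f w) • σ w) z :=
    (contDiffAt_const.sub (contDiffAt_const.mul hf)).smul hσ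
  have hnψ : ‖(1 - δ * f z) • σ z‖ = 1 - δ * f z := by
    rw [norm_smul, hσ1, mul_one, Real.norm_eq_abs, abs_of_pos hr]
  obtain ⟨ξ, t, hξ, ht, h0, h1, h2⟩ := hI (fun w => (1 - δ * f w) • σ w) z n hψ
    (by show ‖(1 - δ * f z) • σ z‖ < 1; rw [hnψ]; exact hr1) hn horth hinner
  have hξξ : ⟪ξ, ξ⟫ = (1 : ℝ) := by rw [real_inner_self_eq_norm_sq, hξ]; norm_num
  have h0' : t * (((1 - δ * f z) ^ 2 - 2 * ((1 - δ * f z) * ⟪σ z, ξ⟫)) + 1) =
      1 - (1 - δ * f z) ^ 2 := by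
    have e1 : t * ‖(1 - δ * f z) • σ z - ξ‖ ^ 2 = 1 - ‖(1 - δ * f z) • σ z‖ ^ 2 := h0
    rw [hnψ, norm_sub_sq_real, hnψ, hξ, real_inner_smul_left] at e1
    rw [← e1]
    ring
  have key : ∀ v : ℂ, 
      t * ((1 - δ * f z) * ⟪d1 σ v z, ξ⟫ - δ * fderiv ℝ f z v * ⟪σ z, ξ⟫) -
        (1 + t) * ((1 - δ * f z) * (- (δ * fderiv ℝ f z v))) = 0 := by
    intro v
    obtain ⟨-, r2, r3⟩ := sig_rel σ z v hσ hs
    have e1 := h1 v
    unfold d1 at e1 r2 ⊢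
    rw [psi_d1 f σ δ z v hfd hσd] at e1
    simp only [inner_sub_left, inner_sub_right, real_inner_smul_left, real_inner_smul_right] at e1
    rw [r1, r2, real_inner_comm (fderiv ℝ σ z v) ξ, real_inner_comm (σ z) ξ] at e1
    linear_combination e1
  have key2 : ∀ v : ℂ, v ≠ 0 → (1 + t) * ((1 - δ * f z) ^ 2 * ⟪d1 σ v z, d1 σ v z⟫ +
      (δ * fderiv ℝ f z v) ^ 2) <
      t * ((1 - δ * f z) * ⟪d2 σ v v z, ξ⟫ - 2 * δ * fderiv ℝ f z v * ⟪d1 σ v z, ξ⟫ -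
        δ * fderiv ℝ (fderiv ℝ f) z v v * ⟪σ z, ξ⟫) -
        (1 + t) * ((1 - δ * f z) * ((1 - δ * f z) * (-⟪d1 σ v z, d1 σ v z⟫) -
          δ * fderiv ℝ (fderiv ℝ f) z v v)) := by
    intro v hv
    obtain ⟨-, r2, r3⟩ := sig_rel σ z v hσ hs
    have e1 := h2 v hv
    rw [psi_d2 f σ δ z v hf hσ, ← real_inner_self_eq_norm_sq] at e1
    unfold d1 at e1 r2 r3 ⊢
    rw [psi_d1 f σ δ z v hfd hσd] at e1
    simp only [inner_sub_left, inner_sub_right, real_inner_smul_left, real_inner_smul_right] at e1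
    rw [r1, r2, r3, real_inner_comm (σ z) (fderiv ℝ σ z v), r2,
      real_inner_comm (fderiv ℝ σ z v) ξ, real_inner_comm (σ z) ξ,
      real_inner_comm (d2 σ v v z) ξ] at e1
    nlinarith [e1]
  refine ⟨ξ, 2 * δ / t, hξ, by positivity, ?_, ?_, ?_⟩
  · have hv := key2 1 one_ne_zero
    exact (alg t δ (f z) _ _ _ _ _ _ ht hδ h0' (key 1) hv).1
  · intro v
    by_cases hv : v = 0
    · subst hv
      simp [d1]
    · exact (alg t δ (f z) _ _ _ _ _ _ ht hδ h0' (key v) (key2 v hv)).2.1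
  · intro v hv
    exact (alg t δ (f z) _ _ _ _ _ _ ht hδ h0' (key v) (key2 v hv)).2.2

end Pool.Agent.Y555.RB
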